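import Mathlib
import Pool.Agent.H.MP_a8ef43_co.A

namespace Pool.Agent.Results.MP_a8ef43_co.No
open Set

/-- `f` restricts to a bijection `X → Y` that is an isomorphism of `A|X` onto `A|Y`. -/
def LocAut {E : Type*} {n : ℕ} (A : Set (Fin n → E)) (X Y : Set E) (f : E → E) : Prop :=
  BijOn f X Y ∧ ∀ x : Fin n → E, (∀ i, x i ∈ X) → (x ∈ A ↔ (fun i => f (x i)) ∈ A)

open Classical in
/-- `D` is an interval mod `A`: every local automorphism `f : X → Y` with `X, Y ⊆ D`, extended by
the identity on the complement of `D`, is a local automorphism of `A`. -/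
def IsInterval {E : Type*} {n : ℕ} (A : Set (Fin n → E)) (D : Set E) : Prop :=
  ∀ (X Y : Set E) (f : E → E), X ⊆ D → Y ⊆ D → LocAut A X Y f →
    LocAut A (X ∪ Dᶜ) (Y ∪ Dᶜ) (fun e => if e ∈ D then f e else e)

def Compactible {E : Type*} {n : ℕ} (A : Set (Fin n → E)) : Prop :=
  ∀ D, IsInterval A D → ∃ S : Set (Set E), S.Finite ∧ (∀ I ∈ S, IsInterval A I) ∧ ⋃₀ S = Dᶜ

open Pool.Agent.H.MP_a8ef43_co in
lemma iff_itv {E : Type*} {n : ℕ} (A : Set (Fin n → E)) (D : Set E) :
    IsInterval A D ↔ Itv A D := by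
  classical
  constructor
  · intro h X f hX hf hi hp x y hxy
    have := (h X (f '' X) f hX hf.image_subset ⟨hi.bijOn_image, hp⟩).2 x (fun i => by
      rcases hxy i with h | h
      · exact Or.inl h.1
      · exact Or.inr h.1)
    rw [this]
    apply Iff.of_eq
    congr 1
    funext i
    beta_reduce
    rcases hxy i with h | h
    · rw [if_pos (hX h.1), h.2]
    · rw [if_neg h.1, h.2]
  · intro h X Y f hX hY ⟨hb, hp⟩
    refine ⟨?_, fun x hx => ?_⟩
    · refine ⟨?_, ?_, ?_⟩
      · rintro e (he | he)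
        · simp only [hX he, if_true]; exact Or.inl (hb.mapsTo he)
        · simp only [(mem_compl_iff _ _).1 he, if_false]; exact Or.inr he
      · intro a ha b hb' hab
        by_cases h1 : a ∈ D <;> by_cases h2 : b ∈ D <;> simp only [h1, h2, if_true, if_false] at hab
        · exact hb.injOn (ha.resolve_right fun h => h h1) (hb'.resolve_right fun h => h h2) hab
        · exact absurd (hab ▸ hY (hb.mapsTo (ha.resolve_right fun h => h h1))) h2
        · exact absurd (hab ▸ hY (hb.mapsTo (hb'.resolve_right fun h => h h2))) h1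
        · exact hab
      · rintro e (he | he)
        · obtain ⟨a, ha, rfl⟩ := hb.surjOn he
          exact ⟨a, Or.inl ha, by simp only [hX ha, if_true]⟩
        · exact ⟨e, Or.inr he, by simp only [(mem_compl_iff _ _).1 he, if_false]⟩
    · apply h X f hX (fun e he => hY (hb.mapsTo he)) hb.injOn hp
      intro i
      rcases hx i with h | h
      · exact Or.inl ⟨h, by simp only [hX h, if_true]⟩
      · exact Or.inr ⟨h, by simp only [(mem_compl_iff _ _).1 h, if_false]⟩

theorem result (E : Type*) (n : ℕ) (A : Set (Fin n → E)) (hA : Compactible A) (D : Set E)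
    (hD : IsInterval A D) :
    ∃ S : Set (Set E), S.Finite ∧ (∀ I ∈ S, IsInterval A I) ∧ S.PairwiseDisjoint id ∧
      ⋃₀ S = Dᶜ := by
  simp only [Compactible, iff_itv] at *
  exact Pool.Agent.H.MP_a8ef43_co.main hA D hD

end Pool.Agent.Results.MP_a8ef43_co.No
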